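import Mathlib

/-!
The regions `‖1 - (2 - q)^m‖ < ‖q - 1‖^2` inside the lens.
-/

namespace Pool.Agent.H55CH

open Metric Set Filter Topology

theorem exists_pow_near {w : ℂ} (hw : ‖w‖ = 1) {ε : ℝ} (hε : 0 < ε) :
    ∃ k, 1 ≤ k ∧ ‖w ^ k - 1‖ < ε := by
  have hmem : ∀ n : ℕ, w ^ n ∈ sphere (0 : ℂ) 1 := by
    intro n
    rw [mem_sphere_zero_iff_norm, norm_pow, hw, one_pow]
  obtain ⟨a, -, φ, hφ, hlim⟩ := (isCompact_sphere (0 : ℂ) 1).tendsto_subseq hmem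
  obtain ⟨N, hN⟩ := Metric.cauchySeq_iff'.1 hlim.cauchySeq ε hε
  have h1 := hN (N + 1) (Nat.le_succ N)
  have h2 : φ N < φ (N + 1) := hφ (Nat.lt_succ_self N)
  refine ⟨φ (N + 1) - φ N, by omega, ?_⟩
  rw [dist_eq_norm] at h1
  have h3 : w ^ φ (N + 1) - w ^ φ N = w ^ φ N * (w ^ (φ (N + 1) - φ N) - 1) := by
    rw [mul_sub, mul_one, ← pow_add]
    congr 2
    omega
  have h4 : ‖w ^ φ (N + 1) - w ^ φ N‖ = ‖w ^ (φ (N + 1) - φ N) - 1‖ := by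
    rw [h3, norm_mul, norm_pow, hw, one_pow, one_mul]
  rw [← h4]
  exact h1

theorem exists_pow_lt_one {z : ℂ} (hz0 : z ≠ 0) (hz1 : ‖z‖ < 1) :
    ∃ m, 3 ≤ m ∧ ‖1 - z ^ m‖ < 1 := by
  have hr : 0 < ‖z‖ := norm_pos_iff.2 hz0
  have hrc : ((‖z‖ : ℝ) : ℂ) ≠ 0 := by
    exact_mod_cast hr.ne'
  set w : ℂ := z / (‖z‖ : ℝ) with hw
  have hwn : ‖w‖ = 1 := by
    rw [hw, norm_div, Complex.norm_real, norm_norm, div_self hr.ne']
  have hzw : z = ((‖z‖ : ℝ) : ℂ) * w := by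
    rw [hw]
    field_simp
  obtain ⟨k, hk, hkw⟩ := exists_pow_near hwn (ε := 1 / 6) (by norm_num)
  refine ⟨3 * k, by omega, ?_⟩
  have h1 : ‖w ^ (3 * k) - 1‖ ≤ 1 / 2 := by
    have e : w ^ (3 * k) - 1 = (w ^ k - 1) * (w ^ (2 * k) + w ^ k + 1) := by
      rw [show 3 * k = 2 * k + k by ring, pow_add, show 2 * k = k + k by ring, pow_add]
      ring
    have e2 : ‖w ^ (2 * k) + w ^ k + 1‖ ≤ 3 := by
      refine (norm_add₃_le).trans ?_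
      rw [norm_pow, norm_pow, hwn, one_pow, one_pow, norm_one]
      norm_num
    rw [e, norm_mul]
    have := mul_le_mul hkw.le e2 (norm_nonneg _) (by norm_num : (0 : ℝ) ≤ 1 / 6)
    linarith
  set r : ℝ := ‖z‖ ^ (3 * k) with hrdef
  have hr0 : 0 < r := pow_pos hr _
  have hr1 : r < 1 := pow_lt_one₀ hr.le hz1 (by omega)
  have h2 : 1 - z ^ (3 * k) = ((1 - r : ℝ) : ℂ) - (r : ℂ) * (w ^ (3 * k) - 1) := by
    have h3 : z ^ (3 * k) = (r : ℂ) * w ^ (3 * k) := by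
      rw [hrdef]
      push_cast
      rw [← mul_pow, ← hzw]
    rw [h3]
    push_cast
    ring
  rw [h2]
  have h4 : ‖((1 - r : ℝ) : ℂ) - (r : ℂ) * (w ^ (3 * k) - 1)‖ ≤
      ‖((1 - r : ℝ) : ℂ)‖ + ‖(r : ℂ) * (w ^ (3 * k) - 1)‖ := norm_sub_le _ _
  rw [norm_mul, Complex.norm_real, Complex.norm_real, Real.norm_eq_abs, Real.norm_eq_abs,
    abs_of_pos hr0, abs_of_pos (by linarith)] at h4
  have h5 : r * ‖w ^ (3 * k) - 1‖ ≤ r * (1 / 2) := mul_le_mul_of_nonneg_left h1 hr0.le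
  linarith

/-- Every point of the arc `‖q - 1‖ = 1`, `0 < ‖q - 2‖ < 1` is an interior point. -/
theorem arc {S : Set ℂ} (hout : ∀ q : ℂ, 1 ≤ ‖q - 1‖ → q ∈ S)
    (hlens : ∀ (q : ℂ) (m : ℕ), 3 ≤ m → q ≠ 1 → ‖q - 1‖ < 1 → ‖q - 2‖ < 1 →
      ‖1 - (2 - q) ^ m‖ < ‖q - 1‖ ^ 2 → q ∈ S)
    {q0 : ℂ} (h1 : ‖q0 - 1‖ = 1) (h2 : ‖q0 - 2‖ < 1) (h3 : q0 ≠ 2) : q0 ∈ interior S := by
  have hz0 : 2 - q0 ≠ 0 := fun h => h3 (sub_eq_zero.1 h).symm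
  have hz1 : ‖2 - q0‖ < 1 := by
    rw [← norm_neg]
    simpa using h2
  obtain ⟨m, hm, hlt⟩ := exists_pow_lt_one hz0 hz1
  have ev1 : ∀ᶠ q in 𝓝 q0, ‖1 - (2 - q) ^ m‖ < ‖q - 1‖ ^ 2 := by
    have c1 : ContinuousAt (fun q : ℂ => ‖1 - (2 - q) ^ m‖) q0 := by fun_prop
    have c2 : ContinuousAt (fun q : ℂ => ‖q - 1‖ ^ 2) q0 := by fun_prop
    refine c1.eventually_lt c2 ?_
    rw [h1, one_pow]
    exact hlt
  have ev2 : ∀ᶠ q in 𝓝 q0, ‖q - 2‖ < 1 := by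
    have c1 : ContinuousAt (fun q : ℂ => ‖q - 2‖) q0 := by fun_prop
    exact c1.eventually_lt_const h2
  have ev3 : ∀ᶠ q in 𝓝 q0, q ≠ 1 := by
    apply eventually_ne_nhds
    intro h
    rw [h, sub_self, norm_zero] at h1
    norm_num at h1
  rw [mem_interior_iff_mem_nhds]
  filter_upwards [ev1, ev2, ev3] with q a1 a2 a3
  rcases le_or_gt 1 ‖q - 1‖ with h | h
  · exact hout q h
  · exact hlens q m hm a3 h a2 a1

/-- The point `3/2 + (4/5) i` lies in the region of `m = 6`. -/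
theorem pt : ((3 / 2 : ℂ) + (4 / 5) * Complex.I) ≠ 1 ∧
    ‖((3 / 2 : ℂ) + (4 / 5) * Complex.I) - 1‖ < 1 ∧
    ‖((3 / 2 : ℂ) + (4 / 5) * Complex.I) - 2‖ < 1 ∧
    ‖1 - (2 - ((3 / 2 : ℂ) + (4 / 5) * Complex.I)) ^ 6‖ <
      ‖((3 / 2 : ℂ) + (4 / 5) * Complex.I) - 1‖ ^ 2 := by
  have n1 : ‖((3 / 2 : ℂ) + (4 / 5) * Complex.I) - 1‖ ^ 2 = 89 / 100 := by
    rw [Complex.sq_norm, Complex.normSq_apply]
    simp
    norm_num
  have n2 : ‖((3 / 2 : ℂ) + (4 / 5) * Complex.I) - 2‖ ^ 2 = 89 / 100 := by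
    rw [Complex.sq_norm, Complex.normSq_apply]
    simp
    norm_num
  have e6 : (2 - ((3 / 2 : ℂ) + (4 / 5) * Complex.I)) ^ 6 =
      (689481 / 1000000 : ℂ) + (14696 / 100000) * Complex.I := by
    have hI : Complex.I ^ 2 = -1 := Complex.I_sq
    have e2 : (2 - ((3 / 2 : ℂ) + (4 / 5) * Complex.I)) ^ 2 =
        (-39 / 100 : ℂ) - (4 / 5) * Complex.I := by
      linear_combination (16 / 25) * hI
    have e3 : (2 - ((3 / 2 : ℂ) + (4 / 5) * Complex.I)) ^ 3 =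
        (-167 / 200 : ℂ) - (11 / 125) * Complex.I := by
      rw [pow_succ, e2]
      linear_combination (16 / 25) * hI
    rw [show (6 : ℕ) = 3 * 2 by norm_num, pow_mul, e3]
    linear_combination (121 / 15625) * hI
  have n3 : ‖1 - (2 - ((3 / 2 : ℂ) + (4 / 5) * Complex.I)) ^ 6‖ ^ 2 < 1 / 4 := by
    rw [e6, Complex.sq_norm, Complex.normSq_apply]
    simp
    norm_num
  have p1 := norm_nonneg (((3 / 2 : ℂ) + (4 / 5) * Complex.I) - 1)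
  have p2 := norm_nonneg (((3 / 2 : ℂ) + (4 / 5) * Complex.I) - 2)
  have p3 := norm_nonneg (1 - (2 - ((3 / 2 : ℂ) + (4 / 5) * Complex.I)) ^ 6)
  refine ⟨?_, by nlinarith, by nlinarith, ?_⟩
  · intro h
    rw [h, sub_self, norm_zero] at n1
    norm_num at n1
  · rw [n1]
    nlinarith

end Pool.Agent.H55CH
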