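import Pool.Agent.H55CH.Arc

/-!
Every boundary point of the right lens, except its two points on the real axis, is an interior
point of the closure.
-/

namespace Pool.Agent.H55CH

open Metric Set Filter Topology

theorem exists_pow_three {w : ℂ} (hw : ‖w‖ = 1) {ε : ℝ} (hε : 0 < ε) :
    ∃ m, 3 ≤ m ∧ ‖1 - w ^ m‖ < ε := by
  obtain ⟨k, hk, hkw⟩ := exists_pow_near hw (ε := ε / 3) (by positivity)
  refine ⟨3 * k, by omega, ?_⟩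
  have e : 1 - w ^ (3 * k) = -((w ^ k - 1) * (w ^ (2 * k) + w ^ k + 1)) := by
    rw [show 3 * k = 2 * k + k by ring, pow_add, show 2 * k = k + k by ring, pow_add]
    ring
  have e2 : ‖w ^ (2 * k) + w ^ k + 1‖ ≤ 3 := by
    refine (norm_add₃_le).trans ?_
    rw [norm_pow, norm_pow, hw, one_pow, one_pow, norm_one]
    norm_num
  rw [e, norm_neg, norm_mul]
  have h1 : ‖w ^ k - 1‖ * ‖w ^ (2 * k) + w ^ k + 1‖ ≤ ‖w ^ k - 1‖ * 3 :=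
    mul_le_mul_of_nonneg_left e2 (norm_nonneg _)
  linarith

theorem arc_pow {q : ℂ} (h1 : ‖q - 1‖ ≤ 1) (h2 : ‖q - 2‖ ≤ 1) (h : ‖q - 1‖ = 1 ∨ ‖q - 2‖ = 1)
    (hq1 : q ≠ 1) (hq2 : q ≠ 2) : ∃ m : ℕ, 3 ≤ m ∧ ‖1 - (2 - q) ^ m‖ < ‖q - 1‖ ^ 2 := by
  have hn : ‖2 - q‖ = ‖q - 2‖ := norm_sub_rev _ _
  have hpos : 0 < ‖q - 1‖ := norm_pos_iff.2 (sub_ne_zero.2 hq1)
  by_cases h3 : ‖q - 2‖ = 1
  · exact exists_pow_three (w := 2 - q) (by rw [hn, h3]) (by positivity)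
  · have h4 : ‖q - 1‖ = 1 := h.resolve_right h3
    have h5 : ‖2 - q‖ < 1 := by
      rw [hn]
      exact lt_of_le_of_ne h2 h3
    rw [h4, one_pow]
    exact exists_pow_lt_one (sub_ne_zero.2 (Ne.symm hq2)) h5

/-- Every boundary point of the lens `‖q - 1‖ ≤ 1`, `‖q - 2‖ ≤ 1`, except `1` and `2`, is an
interior point of `S`. -/
theorem boundary {S : Set ℂ} (hout : ∀ q : ℂ, 1 ≤ ‖q - 1‖ → q ∈ S)
    (hmid : ∀ q : ℂ, 1 ≤ ‖q‖ → 1 ≤ ‖q - 2‖ → q ∈ S)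
    (hlens : ∀ (q : ℂ) (m : ℕ), 3 ≤ m → q ≠ 1 → ‖q - 1‖ < 1 → ‖q - 2‖ < 1 →
      ‖1 - (2 - q) ^ m‖ < ‖q - 1‖ ^ 2 → q ∈ S)
    {q0 : ℂ} (h1 : ‖q0 - 1‖ ≤ 1) (h2 : ‖q0 - 2‖ ≤ 1) (h : ‖q0 - 1‖ = 1 ∨ ‖q0 - 2‖ = 1)
    (hq1 : q0 ≠ 1) (hq2 : q0 ≠ 2) : q0 ∈ interior S := by
  obtain ⟨m, hm, hlt⟩ := arc_pow h1 h2 h hq1 hq2
  have h4 : 1 < ‖q0‖ := by
    by_contra hcon
    push Not at hcon
    apply hq1
    have e1 : ‖q0 - 1‖ ^ 2 ≤ 0 := by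
      have a1 : ‖q0‖ ^ 2 ≤ 1 := by nlinarith [norm_nonneg q0]
      have a2 : ‖q0 - 2‖ ^ 2 ≤ 1 := by nlinarith [norm_nonneg (q0 - 2)]
      rw [Complex.sq_norm, Complex.normSq_apply] at a1 a2 ⊢
      simp only [Complex.sub_re, Complex.sub_im, Complex.one_re, Complex.one_im,
        Complex.re_ofNat, Complex.im_ofNat] at a2 ⊢
      nlinarith
    have e2 : ‖q0 - 1‖ = 0 := by nlinarith [norm_nonneg (q0 - 1)]
    exact sub_eq_zero.1 (norm_eq_zero.1 e2)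
  have ev1 : ∀ᶠ q in 𝓝 q0, ‖1 - (2 - q) ^ m‖ < ‖q - 1‖ ^ 2 := by
    have c1 : ContinuousAt (fun q : ℂ => ‖1 - (2 - q) ^ m‖) q0 := by fun_prop
    have c2 : ContinuousAt (fun q : ℂ => ‖q - 1‖ ^ 2) q0 := by fun_prop
    exact c1.eventually_lt c2 hlt
  have ev2 : ∀ᶠ q in 𝓝 q0, 1 < ‖q‖ := by
    have c1 : ContinuousAt (fun q : ℂ => ‖q‖) q0 := by fun_prop
    exact c1.eventually_const_lt h4
  have ev3 : ∀ᶠ q in 𝓝 q0, q ≠ 1 := eventually_ne_nhds hq1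
  rw [mem_interior_iff_mem_nhds]
  filter_upwards [ev1, ev2, ev3] with q a1 a2 a3
  rcases le_or_gt 1 ‖q - 1‖ with h5 | h5
  · exact hout q h5
  · rcases le_or_gt 1 ‖q - 2‖ with h6 | h6
    · exact hmid q a2.le h6
    · exact hlens q m hm a3 h5 h6 a1

end Pool.Agent.H55CH
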