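import Pool.Agent.H55CH.Arc2

/-!
Every boundary point of the left lens, except its two points on the real axis, is an interior
point of the closure.
-/

namespace Pool.Agent.H55CH

open Metric Set Filter Topology

theorem arc_powL {q : ℂ} (h2 : ‖q - 1‖ ≤ 1) (h : ‖q‖ = 1 ∨ ‖q - 1‖ = 1)
    (hq0 : q ≠ 0) (hq1 : q ≠ 1) : ∃ m : ℕ, 3 ≤ m ∧ ‖1 - (1 - q) ^ m‖ < ‖q‖ := by
  have hn : ‖1 - q‖ = ‖q - 1‖ := norm_sub_rev _ _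
  have hpos : 0 < ‖q‖ := norm_pos_iff.2 hq0
  by_cases h3 : ‖q - 1‖ = 1
  · exact exists_pow_three (w := 1 - q) (by rw [hn, h3]) hpos
  · have h4 : ‖q‖ = 1 := h.resolve_right h3
    have h5 : ‖1 - q‖ < 1 := by
      rw [hn]
      exact lt_of_le_of_ne h2 h3
    rw [h4]
    exact exists_pow_lt_one (sub_ne_zero.2 (Ne.symm hq1)) h5

/-- Every boundary point of the lens `‖q‖ ≤ 1`, `‖q - 1‖ ≤ 1`, except `0` and `1`, is an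
interior point of `S`. -/
theorem boundaryL {S : Set ℂ} (hout : ∀ q : ℂ, 1 ≤ ‖q - 1‖ → q ∈ S)
    (hmid : ∀ q : ℂ, 1 ≤ ‖q‖ → 1 ≤ ‖q - 2‖ → q ∈ S)
    (hleft : ∀ (q : ℂ) (m : ℕ), 3 ≤ m → q ≠ 0 → ‖q‖ < 1 → ‖q - 1‖ < 1 →
      ‖1 - (1 - q) ^ m‖ < ‖q‖ → q ∈ S)
    {q0 : ℂ} (h1 : ‖q0‖ ≤ 1) (h2 : ‖q0 - 1‖ ≤ 1) (h : ‖q0‖ = 1 ∨ ‖q0 - 1‖ = 1)
    (hq0 : q0 ≠ 0) (hq1 : q0 ≠ 1) : q0 ∈ interior S := by
  obtain ⟨m, hm, hlt⟩ := arc_powL h2 h hq0 hq1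
  have h4 : 1 < ‖q0 - 2‖ := by
    by_contra hcon
    push Not at hcon
    apply hq1
    have e1 : ‖q0 - 1‖ ^ 2 ≤ 0 := by
      have a1 : ‖q0‖ ^ 2 ≤ 1 := by nlinarith [norm_nonneg q0]
      have a2 : ‖q0 - 2‖ ^ 2 ≤ 1 := by nlinarith [norm_nonneg (q0 - 2)]
      rw [Complex.sq_norm, Complex.normSq_apply] at a1 a2 ⊢
      simp only [Complex.sub_re, Complex.sub_im, Complex.one_re, Complex.one_im,
        Complex.re_ofNat, Complex.im_ofNat] at a2 ⊢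
      nlinarith
    have e2 : ‖q0 - 1‖ = 0 := by nlinarith [norm_nonneg (q0 - 1)]
    exact sub_eq_zero.1 (norm_eq_zero.1 e2)
  have ev1 : ∀ᶠ q in 𝓝 q0, ‖1 - (1 - q) ^ m‖ < ‖q‖ := by
    have c1 : ContinuousAt (fun q : ℂ => ‖1 - (1 - q) ^ m‖) q0 := by fun_prop
    have c2 : ContinuousAt (fun q : ℂ => ‖q‖) q0 := by fun_prop
    exact c1.eventually_lt c2 hlt
  have ev2 : ∀ᶠ q in 𝓝 q0, 1 < ‖q - 2‖ := by
    have c1 : ContinuousAt (fun q : ℂ => ‖q - 2‖) q0 := by fun_prop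
    exact c1.eventually_const_lt h4
  have ev3 : ∀ᶠ q in 𝓝 q0, q ≠ 0 := eventually_ne_nhds hq0
  rw [mem_interior_iff_mem_nhds]
  filter_upwards [ev1, ev2, ev3] with q a1 a2 a3
  rcases le_or_gt 1 ‖q - 1‖ with h5 | h5
  · exact hout q h5
  · rcases le_or_gt 1 ‖q‖ with h6 | h6
    · exact hmid q h6 a2.le
    · exact hleft q m hm a3 h6 h5 a1

/-- The point `1/2 + (4/5) i` lies in the region of `m = 6` of the left lens. -/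
theorem ptL : ((1 / 2 : ℂ) + (4 / 5) * Complex.I) ≠ 0 ∧
    ‖((1 / 2 : ℂ) + (4 / 5) * Complex.I)‖ < 1 ∧
    ‖((1 / 2 : ℂ) + (4 / 5) * Complex.I) - 1‖ < 1 ∧
    ‖1 - (1 - ((1 / 2 : ℂ) + (4 / 5) * Complex.I)) ^ 6‖ <
      ‖((1 / 2 : ℂ) + (4 / 5) * Complex.I)‖ := by
  obtain ⟨p1, p2, p3, p4⟩ := pt
  have e1 : ((3 / 2 : ℂ) + (4 / 5) * Complex.I) - 1 = (1 / 2 : ℂ) + (4 / 5) * Complex.I := by
    ring
  have e2 : ((3 / 2 : ℂ) + (4 / 5) * Complex.I) - 2 =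
      ((1 / 2 : ℂ) + (4 / 5) * Complex.I) - 1 := by
    ring
  have e3 : 2 - ((3 / 2 : ℂ) + (4 / 5) * Complex.I) =
      1 - ((1 / 2 : ℂ) + (4 / 5) * Complex.I) := by
    ring
  rw [e3, e1] at p4
  rw [e1] at p2
  rw [e2] at p3
  refine ⟨?_, p2, p3, ?_⟩
  · intro h
    exact p1 (by linear_combination h)
  · nlinarith [norm_nonneg ((1 / 2 : ℂ) + (4 / 5) * Complex.I)]

end Pool.Agent.H55CH
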