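import Mathlib

/-!
The arc `‖q‖ = 1`, `‖q - 1‖ < 1` of the left lens.
-/

namespace Pool.Agent.H55CH

open Metric Set Filter Topology

theorem sin_gt_half {y : ℝ} (h1 : Real.pi / 6 < y) (h2 : y < 5 * Real.pi / 6) :
    1 / 2 < Real.sin y := by
  have hp := Real.pi_pos
  rw [← Real.sin_pi_div_six]
  rcases le_total y (Real.pi / 2) with h | h
  · exact Real.sin_lt_sin_of_lt_of_le_pi_div_two (by linarith) h h1
  · rw [← Real.sin_pi_sub y]
    exact Real.sin_lt_sin_of_lt_of_le_pi_div_two (by linarith) (by linarith) (by linarith)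

/-- The power `4 j + 1` of `1 - exp (i φ)`. -/
theorem one_sub_exp_pow (φ : ℝ) (j : ℕ) :
    (1 - Complex.exp (φ * Complex.I)) ^ (4 * j + 1) =
      (((2 * Real.sin (φ / 2)) ^ (4 * j + 1) : ℝ) : ℂ) *
        ((Real.sin ((4 * j + 1) * (φ / 2)) : ℝ) - (Real.cos ((4 * j + 1) * (φ / 2)) : ℝ) *
          Complex.I) := by
  have hI : Complex.I ^ 2 = -1 := Complex.I_sq
  have h0 : Complex.exp (φ * Complex.I) = Complex.exp ((φ / 2 : ℝ) * Complex.I) ^ 2 := by
    rw [← Complex.exp_nat_mul]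
    congr 1
    push_cast
    ring
  have h1 : Complex.exp ((φ / 2 : ℝ) * Complex.I) =
      (Real.cos (φ / 2) : ℝ) + (Real.sin (φ / 2) : ℝ) * Complex.I := by
    rw [Complex.exp_mul_I, Complex.ofReal_cos, Complex.ofReal_sin]
  have hcs : ((Real.cos (φ / 2) : ℝ) : ℂ) ^ 2 + ((Real.sin (φ / 2) : ℝ) : ℂ) ^ 2 = 1 := by
    have := Real.cos_sq_add_sin_sq (φ / 2)
    exact_mod_cast this
  have h2 : 1 - Complex.exp (φ * Complex.I) =
      (((2 * Real.sin (φ / 2) : ℝ) : ℂ) * (-Complex.I)) *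
        Complex.exp ((φ / 2 : ℝ) * Complex.I) := by
    rw [h0, h1]
    generalize Real.cos (φ / 2) = c at *
    generalize Real.sin (φ / 2) = s at *
    push_cast
    linear_combination -hcs + (s : ℂ) ^ 2 * hI
  have h3 : Complex.exp ((φ / 2 : ℝ) * Complex.I) ^ (4 * j + 1) =
      (Real.cos ((4 * j + 1) * (φ / 2)) : ℝ) +
        (Real.sin ((4 * j + 1) * (φ / 2)) : ℝ) * Complex.I := by
    rw [← Complex.exp_nat_mul, Complex.ofReal_cos, Complex.ofReal_sin, ← Complex.exp_mul_I]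
    congr 1
    push_cast
    ring
  have h4 : (-Complex.I) ^ (4 * j + 1) = -Complex.I := by
    have e : (-Complex.I) ^ 4 = 1 := by
      linear_combination (Complex.I ^ 2 - 1) * hI
    rw [pow_succ, pow_mul, e, one_pow, one_mul]
  rw [h2, mul_pow, mul_pow, h3, h4, Complex.ofReal_pow]
  generalize ((2 * Real.sin (φ / 2) : ℝ) : ℂ) ^ (4 * j + 1) = r
  generalize ((Real.sin ((4 * j + 1) * (φ / 2)) : ℝ) : ℂ) = s
  generalize ((Real.cos ((4 * j + 1) * (φ / 2)) : ℝ) : ℂ) = c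
  linear_combination -(r * s) * hI

theorem arc_left_pos {φ : ℝ} (h0 : 0 < φ) (h1 : φ < Real.pi / 3) :
    ∃ j : ℕ, 1 ≤ j ∧ ‖1 - (1 - Complex.exp (φ * Complex.I)) ^ (4 * j + 1)‖ < 1 := by
  have hp := Real.pi_pos
  set x : ℝ := (Real.pi / 6 - φ / 2) / (2 * φ) with hx
  have hx0 : 0 < x := div_pos (by linarith) (by linarith)
  have hxe : x * (2 * φ) = Real.pi / 6 - φ / 2 := by
    rw [hx]
    field_simp
  set j := ⌊x⌋₊ + 1 with hj
  have hj1 : x < (j : ℝ) := by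
    rw [hj]
    push_cast
    exact Nat.lt_floor_add_one x
  have hj2 : (j : ℝ) ≤ x + 1 := by
    rw [hj]
    push_cast
    linarith [Nat.floor_le hx0.le]
  have y1 : Real.pi / 6 < (4 * j + 1) * (φ / 2) := by
    have := mul_lt_mul_of_pos_right hj1 (by linarith : 0 < 2 * φ)
    rw [hxe] at this
    linarith
  have y2 : (4 * j + 1) * (φ / 2) < 5 * Real.pi / 6 := by
    have := mul_le_mul_of_nonneg_right hj2 (by linarith : 0 ≤ 2 * φ)
    rw [add_mul, hxe] at this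
    linarith
  have hs := sin_gt_half y1 y2
  have s0 : 0 < Real.sin (φ / 2) :=
    Real.sin_pos_of_pos_of_lt_pi (by linarith) (by linarith)
  have s1 : Real.sin (φ / 2) < 1 / 2 := by
    rw [← Real.sin_pi_div_six]
    exact Real.sin_lt_sin_of_lt_of_le_pi_div_two (by linarith) (by linarith) (by linarith)
  set r : ℝ := (2 * Real.sin (φ / 2)) ^ (4 * j + 1) with hr
  have r0 : 0 < r := pow_pos (by linarith) _
  have r1 : r < 1 := pow_lt_one₀ (by linarith) (by linarith) (by omega)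
  refine ⟨j, by omega, ?_⟩
  rw [one_sub_exp_pow, ← hr]
  set S : ℝ := Real.sin ((4 * j + 1) * (φ / 2)) with hS
  set Cc : ℝ := Real.cos ((4 * j + 1) * (φ / 2)) with hC
  have hsc : S ^ 2 + Cc ^ 2 = 1 := Real.sin_sq_add_cos_sq _
  have n1 : ‖1 - (r : ℂ) * ((S : ℂ) - (Cc : ℂ) * Complex.I)‖ ^ 2 < 1 := by
    rw [Complex.sq_norm, Complex.normSq_apply]
    simp only [Complex.sub_re, Complex.sub_im, Complex.mul_re, Complex.mul_im,
      Complex.ofReal_re, Complex.ofReal_im, Complex.I_re, Complex.I_im, Complex.one_re,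
      Complex.one_im]
    have k1 : r * r < r * (2 * S) := mul_lt_mul_of_pos_left (by linarith) r0
    have k2 : r ^ 2 * (S ^ 2 + Cc ^ 2) = r ^ 2 := by rw [hsc, mul_one]
    nlinarith [k1, k2]
  nlinarith [norm_nonneg (1 - (r : ℂ) * ((S : ℂ) - (Cc : ℂ) * Complex.I))]

theorem arcL_pow {q : ℂ} (h1 : ‖q‖ = 1) (h2 : ‖q - 1‖ < 1) (h3 : q ≠ 1) :
    ∃ k : ℕ, 3 ≤ k ∧ Odd k ∧ ‖1 - (1 - q) ^ k‖ < 1 := by
  have hre : 1 / 2 < q.re := by
    have a1 : ‖q‖ ^ 2 = 1 := by rw [h1, one_pow]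
    have a2 : ‖q - 1‖ ^ 2 < 1 := by nlinarith [norm_nonneg (q - 1)]
    rw [Complex.sq_norm, Complex.normSq_apply] at a1 a2
    simp only [Complex.sub_re, Complex.sub_im, Complex.one_re, Complex.one_im] at a2
    nlinarith
  have hq : q = Complex.exp (Complex.arg q * Complex.I) := by
    have := Complex.norm_mul_exp_arg_mul_I q
    rw [h1] at this
    simpa using this.symm
  have hcos : Real.cos (Complex.arg q) = q.re := by
    rw [Complex.cos_arg (by intro h; rw [h, norm_zero] at h1; norm_num at h1), h1, div_one]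
  have habs : |Complex.arg q| < Real.pi / 3 := by
    by_contra hcon
    push Not at hcon
    have b1 : Real.cos |Complex.arg q| ≤ Real.cos (Real.pi / 3) :=
      Real.cos_le_cos_of_nonneg_of_le_pi (by positivity) (Complex.abs_arg_le_pi q) hcon
    rw [Real.cos_abs, Real.cos_pi_div_three, hcos] at b1
    linarith
  have hne : Complex.arg q ≠ 0 := by
    intro h
    rw [h] at hq
    apply h3
    rw [hq]
    simp
  rcases lt_or_gt_of_ne hne with h | h
  · obtain ⟨j, hj, hlt⟩ := arc_left_pos (φ := -Complex.arg q) (by linarith)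
      (by rw [← abs_of_neg h]; exact habs)
    refine ⟨4 * j + 1, by omega, ⟨2 * j, by ring⟩, ?_⟩
    have e1 : Complex.exp ((-Complex.arg q : ℝ) * Complex.I) = (starRingEnd ℂ) q := by
      have e0 : (starRingEnd ℂ) q = (starRingEnd ℂ) (Complex.exp (Complex.arg q * Complex.I)) :=
        congrArg _ hq
      rw [e0, ← Complex.exp_conj]
      congr 1
      simp
    rw [e1] at hlt
    have e2 : 1 - (1 - (starRingEnd ℂ) q) ^ (4 * j + 1) =
        (starRingEnd ℂ) (1 - (1 - q) ^ (4 * j + 1)) := by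
      simp
    rw [e2, RCLike.norm_conj] at hlt
    exact hlt
  · obtain ⟨j, hj, hlt⟩ := arc_left_pos (φ := Complex.arg q) h
      (by rw [← abs_of_pos h]; exact habs)
    refine ⟨4 * j + 1, by omega, ⟨2 * j, by ring⟩, ?_⟩
    rw [← hq] at hlt
    exact hlt

/-- Every point of the arc `‖q‖ = 1`, `0 < ‖q - 1‖ < 1` of the left lens is an interior point. -/
theorem arcL {S : Set ℂ} (hmid : ∀ q : ℂ, 1 ≤ ‖q‖ → 1 ≤ ‖q - 2‖ → q ∈ S)
    (hleft : ∀ (q : ℂ) (k : ℕ), 3 ≤ k → Odd k → q ≠ 0 → ‖q - 1‖ < 1 → 1 < ‖q - 2‖ →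
      ‖1 - (1 - q) ^ k‖ < ‖q‖ → q ∈ S)
    {q0 : ℂ} (h1 : ‖q0‖ = 1) (h2 : ‖q0 - 1‖ < 1) (h3 : q0 ≠ 1) : q0 ∈ interior S := by
  obtain ⟨k, hk, hodd, hlt⟩ := arcL_pow h1 h2 h3
  have h4 : 1 < ‖q0 - 2‖ := by
    by_contra hcon
    push Not at hcon
    apply h3
    have e1 : ‖q0 - 1‖ ^ 2 ≤ 0 := by
      have a1 : ‖q0‖ ^ 2 = 1 := by rw [h1, one_pow]
      have a2 : ‖q0 - 2‖ ^ 2 ≤ 1 := by nlinarith [norm_nonneg (q0 - 2)]
      rw [Complex.sq_norm, Complex.normSq_apply] at a1 a2 ⊢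
      simp only [Complex.sub_re, Complex.sub_im, Complex.one_re, Complex.one_im,
        Complex.re_ofNat, Complex.im_ofNat] at a2 ⊢
      nlinarith
    have e2 : ‖q0 - 1‖ = 0 := by nlinarith [norm_nonneg (q0 - 1)]
    exact sub_eq_zero.1 (norm_eq_zero.1 e2)
  have ev1 : ∀ᶠ q in 𝓝 q0, ‖1 - (1 - q) ^ k‖ < ‖q‖ := by
    have c1 : ContinuousAt (fun q : ℂ => ‖1 - (1 - q) ^ k‖) q0 := by fun_prop
    have c2 : ContinuousAt (fun q : ℂ => ‖q‖) q0 := by fun_prop
    refine c1.eventually_lt c2 ?_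
    rw [h1]
    exact hlt
  have ev2 : ∀ᶠ q in 𝓝 q0, 1 < ‖q - 2‖ := by
    have c1 : ContinuousAt (fun q : ℂ => ‖q - 2‖) q0 := by fun_prop
    exact c1.eventually_const_lt h4
  have ev3 : ∀ᶠ q in 𝓝 q0, ‖q - 1‖ < 1 := by
    have c1 : ContinuousAt (fun q : ℂ => ‖q - 1‖) q0 := by fun_prop
    exact c1.eventually_lt_const h2
  have ev4 : ∀ᶠ q in 𝓝 q0, q ≠ 0 := by
    apply eventually_ne_nhds
    intro h
    rw [h, norm_zero] at h1
    norm_num at h1
  rw [mem_interior_iff_mem_nhds]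
  filter_upwards [ev1, ev2, ev3, ev4] with q a1 a2 a3 a4
  rcases le_or_gt 1 ‖q‖ with h5 | h5
  · exact hmid q h5 a2.le
  · exact hleft q k hk hodd a4 a3 a2 a1

end Pool.Agent.H55CH
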